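import Pool.Agent.HP778.Main

/-!
# Numbers `n` for which `u log n + z` is a linear form in logarithms: the numbers `π` and `e`

Complements to `Pool.Agent.HP778.Main`.
-/

set_option autoImplicit false

namespace Pool.Agent.Helper927_pe

open Module Finset Polynomial
open Pool.Agent.HP778
open Pool.Agent.H301R2.SSE (QB mem_QB Lt LB Lt_mul Lt_alg Lt_log Lt_one LB_log LB_mul)

/-- the number `π` as a complex number -/
noncomputable abbrev piC : ℂ := ((Real.pi : ℝ) : ℂ)

/-- the number `e` as a complex number -/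
noncomputable abbrev eC : ℂ := ((Real.exp 1 : ℝ) : ℂ)

/-- the real logarithm of a positive integer as a complex number -/
noncomputable abbrev lg (n : ℕ) : ℂ := ((Real.log n : ℝ) : ℂ)

theorem pi_tr : Transcendental ℚ piC :=
  ofReal_transcendental Pool.Agent.H340R2.LW.transcendental_pi

theorem e_tr : Transcendental ℚ eC :=
  ofReal_transcendental Pool.Agent.H340R2.LW.transcendental_exp_one

/-- Baker: `1` is not a linear combination of logarithms. -/
theorem one_notMem_LB : (1 : ℂ) ∉ LB := by
  intro h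
  obtain ⟨b, hb, hspan, hli⟩ :=
    exists_linearIndependent ℚ {z : ℂ | IsAlgebraic ℚ (Complex.exp z)}
  have hind := Pool.Agent.W254.HP.opt_indep (fun z : b => (z : ℂ)) (fun z => hb z.2) hli
  have h1 : LB ≤ Submodule.span QB (Set.range (fun z : b => (z : ℂ))) := by
    unfold LB
    rw [Submodule.span_le]
    intro z hz
    have h3 : z ∈ Submodule.span ℚ b := by rw [hspan]; exact Submodule.subset_span hz
    have h2 : Submodule.span ℚ b ≤
        (Submodule.span QB (Set.range fun z : b => (z : ℂ))).restrictScalars ℚ :=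
      Submodule.span_le.mpr (fun x hx => Submodule.subset_span ⟨⟨x, hx⟩, rfl⟩)
    exact h2 h3
  have h4 := (linearIndependent_option.mp hind).2
  apply h4
  exact h1 h

/-- `1 + λ` together with independent logarithms -/
theorem indep_shift {m : ℕ} {l : Fin m → ℂ} (halg : ∀ i, IsAlgebraic ℚ (Complex.exp (l i)))
    (hli : LinearIndependent ℚ l) {lam : ℂ} (hlam : IsAlgebraic ℚ (Complex.exp lam)) :
    LinearIndependent QB (fun i : Fin (m + 1) => (finSuccEquiv m i).elim (1 + lam) l) := by
  have h : LinearIndependent QB (fun o : Option (Fin m) => o.elim (1 + lam) l) := by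
    rw [linearIndependent_option]
    refine ⟨indep_QB halg hli, fun hmem => one_notMem_LB ?_⟩
    have h1 : Submodule.span QB (Set.range ((fun o : Option (Fin m) => o.elim (1 + lam) l) ∘ some))
        ≤ LB := by
      rw [Submodule.span_le]
      rintro _ ⟨i, rfl⟩
      exact LB_log (halg i)
    have h2 := LB.sub_mem (h1 hmem) (LB_log hlam)
    have h3 : ((fun o : Option (Fin m) => o.elim (1 + lam) l) none) - lam = 1 := by
      change (1 + lam) - lam = 1
      ring
    rw [h3] at h2
    exact h2
  exact h.comp (finSuccEquiv m) (finSuccEquiv m).injective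

/-- `π i` together with independent real numbers -/
theorem indep_pi {m : ℕ} {l : Fin m → ℂ} (hre : ∀ i, (l i).im = 0)
    (hli : LinearIndependent ℚ l) :
    LinearIndependent ℚ (fun i : Fin (m + 1) => (finSuccEquiv m i).elim (piC * Complex.I) l) := by
  have h : LinearIndependent ℚ (fun o : Option (Fin m) => o.elim (piC * Complex.I) l) := by
    rw [linearIndependent_option]
    refine ⟨hli, fun hmem => ?_⟩
    have h1 : ∀ z ∈ Submodule.span ℚ
        (Set.range ((fun o : Option (Fin m) => o.elim (piC * Complex.I) l) ∘ some)), z.im = 0 := by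
      intro z hz
      induction hz using Submodule.span_induction with
      | mem x hx =>
        obtain ⟨i, rfl⟩ := hx
        exact hre i
      | zero => simp
      | add x y _ _ hx hy => rw [Complex.add_im, hx, hy, add_zero]
      | smul a x _ hx =>
        rw [Algebra.smul_def, Complex.mul_im, hx]
        simp
    have h2 := h1 _ hmem
    change (piC * Complex.I).im = 0 at h2
    rw [Complex.mul_im] at h2
    simp at h2
  exact h.comp (finSuccEquiv m) (finSuccEquiv m).injective

theorem alg_piI : IsAlgebraic ℚ (Complex.exp (piC * Complex.I)) := by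
  rw [Complex.exp_pi_mul_I]; exact isAlgebraic_one.neg

/-- the space spanned by finitely many numbers -/
noncomputable def SP {k : ℕ} (v : Fin k → ℂ) : Submodule QB ℂ := Submodule.span QB (Set.range v)

instance {k : ℕ} (v : Fin k → ℂ) : FiniteDimensional QB (SP v) :=
  FiniteDimensional.span_of_finite QB (Set.finite_range _)

theorem mem_SP {k : ℕ} (v : Fin k → ℂ) (i : Fin k) : v i ∈ SP v := Submodule.subset_span ⟨i, rfl⟩

theorem finrank_SP {k : ℕ} (v : Fin k → ℂ) : finrank QB (SP v) ≤ k := by
  have h := finrank_range_le_card (R := QB) (M := ℂ) v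
  rw [Fintype.card_fin] at h
  exact h

/-- the strong six exponentials theorem: at most two independent `y` with `y` and `t y` linear forms
in logarithms -/
theorem rank_two {t : ℂ} (ht : Transcendental ℚ t) {m : ℕ} (l : Fin m → ℂ)
    (hl : LinearIndependent QB l) (hlV : ∀ i, l i ∈ Lt) (hw : ∀ i, t * l i ∈ Lt) : m ≤ 2 := by
  have h := rank_space hyper_Lt (SP ![(1 : ℂ), t])
    (mem_SP ![(1 : ℂ), t] 0) l (fun _ => t) 0 (fun _ => mem_SP ![(1 : ℂ), t] 1)
    (fun _ a ha => ht (by rw [← ha]; exact mem_QB.mp a.2)) hl hlV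
    (fun i => by simpa using hw i) ⊥ (fun i => Submodule.zero_mem _)
  rw [finrank_bot, zero_add] at h
  have h2 := finrank_SP ![(1 : ℂ), t]
  have h3 : finrank QB (SP ![(1 : ℂ), t]) * (finrank QB (SP ![(1 : ℂ), t]) - 1) ≤ 2 * (2 - 1) :=
    Nat.mul_le_mul h2 (Nat.sub_le_sub_right h2 1)
  omega

theorem lg_sub_im (n n₀ : ℕ) : (lg n - lg n₀).im = 0 := by
  rw [Complex.sub_im, Complex.ofReal_im, Complex.ofReal_im, sub_zero]

open Classical in
/-- the `n` with `t (log n + 1)` a linear form in logarithms -/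
theorem count_shift {t : ℂ} (ht : Transcendental ℚ t) (N : ℕ) :
    ((Finset.Icc 1 N).filter (fun n : ℕ => t * lg n + t ∈ Lt)).card ≤ Nat.log 2 N + 1 := by
  set S := (Finset.Icc 1 N).filter (fun n : ℕ => t * lg n + t ∈ Lt) with hS
  rcases S.eq_empty_or_nonempty with h0 | ⟨n₀, hn₀⟩
  · rw [h0, Finset.card_empty]
    exact Nat.zero_le _
  have hmem : ∀ n ∈ S, (1 ≤ n ∧ n ≤ N) ∧ t * lg n + t ∈ Lt := fun n hn =>
    ⟨Finset.mem_Icc.mp (Finset.mem_filter.mp hn).1, (Finset.mem_filter.mp hn).2⟩
  have h4 := count (N := N) (r := 1) S (fun n hn => (hmem n hn).1) n₀ (hmem n₀ hn₀).1.2 ?_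
  · rwa [pow_one] at h4
  intro m n hn hli
  have halg : ∀ i, IsAlgebraic ℚ (Complex.exp (lg (n i) - lg n₀)) := fun i =>
    exp_sub_alg (hmem _ (hn i)).1.1 (hmem _ hn₀).1.1
  have h := rank_two ht (fun i : Fin (m + 1) => (finSuccEquiv m i).elim (1 + lg n₀)
    (fun j => lg (n j) - lg n₀)) (indep_shift halg hli (exp_log_alg (hmem _ hn₀).1.1)) ?_ ?_
  · omega
  · intro i
    cases finSuccEquiv m i with
    | none => exact Lt.add_mem Lt_one (Lt_log (exp_log_alg (hmem _ hn₀).1.1))
    | some j => exact Lt_log (halg j)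
  · intro i
    cases finSuccEquiv m i with
    | none =>
      change t * (1 + lg n₀) ∈ Lt
      have : t * (1 + lg n₀) = t * lg n₀ + t := by ring
      rw [this]
      exact (hmem n₀ hn₀).2
    | some j =>
      change t * (lg (n j) - lg n₀) ∈ Lt
      have : t * (lg (n j) - lg n₀) = (t * lg (n j) + t) - (t * lg n₀ + t) := by ring
      rw [this]
      exact Lt.sub_mem (hmem _ (hn j)).2 (hmem _ hn₀).2

open Classical in
/-- the `n` with `t log n + z` a linear form in logarithms, if `π t` is one -/
theorem count_pi {t : ℂ} (ht : Transcendental ℚ t) (hpt : piC * t ∈ Lt) (z : ℂ) (N : ℕ) :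
    ((Finset.Icc 1 N).filter (fun n : ℕ => t * lg n + z ∈ Lt)).card ≤ Nat.log 2 N + 1 := by
  set S := (Finset.Icc 1 N).filter (fun n : ℕ => t * lg n + z ∈ Lt) with hS
  rcases S.eq_empty_or_nonempty with h0 | ⟨n₀, hn₀⟩
  · rw [h0, Finset.card_empty]
    exact Nat.zero_le _
  have hmem : ∀ n ∈ S, (1 ≤ n ∧ n ≤ N) ∧ t * lg n + z ∈ Lt := fun n hn =>
    ⟨Finset.mem_Icc.mp (Finset.mem_filter.mp hn).1, (Finset.mem_filter.mp hn).2⟩
  have h4 := count (N := N) (r := 1) S (fun n hn => (hmem n hn).1) n₀ (hmem n₀ hn₀).1.2 ?_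
  · rwa [pow_one] at h4
  intro m n hn hli
  have halg : ∀ i, IsAlgebraic ℚ (Complex.exp (lg (n i) - lg n₀)) := fun i =>
    exp_sub_alg (hmem _ (hn i)).1.1 (hmem _ hn₀).1.1
  have h := logs_poly ht (D := 1) le_rfl (fun i : Fin (m + 1) => (finSuccEquiv m i).elim
    (piC * Complex.I) (fun j => lg (n j) - lg n₀)) ?_ (indep_pi (fun i => lg_sub_im _ _) hli) ?_
  · omega
  · intro i
    cases finSuccEquiv m i with
    | none => exact alg_piI
    | some j => exact halg j
  · intro i
    refine ⟨X, by simp, by simp, ?_⟩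
    rw [aeval_X]
    cases finSuccEquiv m i with
    | none =>
      change t * (piC * Complex.I) ∈ Lt
      have : t * (piC * Complex.I) = Complex.I * (piC * t) := by ring
      rw [this]
      exact Lt_mul Pool.Agent.H340R2.LW.isAlgebraic_I hpt
    | some j =>
      change t * (lg (n j) - lg n₀) ∈ Lt
      have : t * (lg (n j) - lg n₀) = (t * lg (n j) + z) - (t * lg n₀ + z) := by ring
      rw [this]
      exact Lt.sub_mem (hmem _ (hn j)).2 (hmem _ hn₀).2

theorem lg_inj {n n₀ : ℕ} (hn : 1 ≤ n) (hn₀ : 1 ≤ n₀) (h : lg n - lg n₀ = 0) : n = n₀ := by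
  have h1 : Real.log n = Real.log n₀ := by
    have := sub_eq_zero.mp h
    exact_mod_cast this
  have h2 := Real.log_injOn_pos (x₁ := (n : ℝ)) (x₂ := (n₀ : ℝ))
    (Set.mem_Ioi.mpr (by exact_mod_cast hn)) (Set.mem_Ioi.mpr (by exact_mod_cast hn₀)) h1
  exact_mod_cast h2

/-- if `t` and `π t` are linear forms in logarithms, then `t log n + z` is one for at most one `n` -/
theorem unique_pi {t : ℂ} (ht : Transcendental ℚ t) (htL : t ∈ Lt) (hpt : piC * t ∈ Lt) (z : ℂ)
    {n n₀ : ℕ} (hn : 1 ≤ n) (hn₀ : 1 ≤ n₀) (h : t * lg n + z ∈ Lt) (h₀ : t * lg n₀ + z ∈ Lt) :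
    n = n₀ := by
  by_contra hne
  have hl : LinearIndependent ℚ (fun _ : Fin 1 => lg n - lg n₀) := by
    rw [linearIndependent_unique_iff]
    intro h0
    exact hne (lg_inj hn hn₀ h0)
  have h := logs_poly' ht htL (D := 1) le_rfl (fun i : Fin (1 + 1) => (finSuccEquiv 1 i).elim
    (piC * Complex.I) (fun _ => lg n - lg n₀)) ?_ (indep_pi (fun i => lg_sub_im _ _) hl) ?_
  · omega
  · intro i
    cases finSuccEquiv 1 i with
    | none => exact alg_piI
    | some j => exact exp_sub_alg hn hn₀
  · intro i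
    refine ⟨X, by simp, by simp, ?_⟩
    rw [aeval_X]
    cases finSuccEquiv 1 i with
    | none =>
      change t * (piC * Complex.I) ∈ Lt
      have : t * (piC * Complex.I) = Complex.I * (piC * t) := by ring
      rw [this]
      exact Lt_mul Pool.Agent.H340R2.LW.isAlgebraic_I hpt
    | some j =>
      change t * (lg n - lg n₀) ∈ Lt
      have : t * (lg n - lg n₀) = (t * lg n + z) - (t * lg n₀ + z) := by ring
      rw [this]
      exact Lt.sub_mem h h₀

/-- multipliers in the space spanned by `1`, `π`, `e`, and further terms in a space `U` -/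
theorem rank_PE (U : Submodule QB ℂ) [FiniteDimensional QB U] {m : ℕ} (l τ u : Fin m → ℂ)
    (halg : ∀ i, IsAlgebraic ℚ (Complex.exp (l i))) (hli : LinearIndependent ℚ l)
    (hτ : ∀ i, τ i ∈ SP ![(1 : ℂ), piC, eC])
    (htr : ∀ i, Transcendental ℚ (τ i)) (hu : ∀ i, u i ∈ U)
    (hw : ∀ i, τ i * l i + u i ∈ Lt) : m + 1 ≤ finrank QB U + 6 := by
  have h := rank_space hyper_Lt (SP ![(1 : ℂ), piC, eC])
    (mem_SP ![(1 : ℂ), piC, eC] 0) (fun i : Fin (m + 1) => (finSuccEquiv m i).elim 1 l)
    (fun i => (finSuccEquiv m i).elim piC τ) (fun i => (finSuccEquiv m i).elim 0 u) ?_ ?_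
    (indep_cons halg hli) ?_ ?_ U ?_
  · have h2 := finrank_SP ![(1 : ℂ), piC, eC]
    have h3 : finrank QB (SP ![(1 : ℂ), piC, eC]) *
        (finrank QB (SP ![(1 : ℂ), piC, eC]) - 1) ≤ 3 * (3 - 1) :=
      Nat.mul_le_mul h2 (Nat.sub_le_sub_right h2 1)
    omega
  · intro i
    cases finSuccEquiv m i with
    | none => exact mem_SP ![(1 : ℂ), piC, eC] 1
    | some j => exact hτ j
  · intro i a ha
    cases hi : finSuccEquiv m i with
    | none =>
      rw [hi] at ha
      apply pi_tr
      change algebraMap QB ℂ a = piC at ha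
      rw [← ha]
      exact mem_QB.mp a.2
    | some j =>
      rw [hi] at ha
      apply htr j
      change algebraMap QB ℂ a = τ j at ha
      rw [← ha]
      exact mem_QB.mp a.2
  · intro i
    cases finSuccEquiv m i with
    | none => exact Lt_one
    | some j => exact Lt_log (halg j)
  · intro i
    cases finSuccEquiv m i with
    | none =>
      change piC * 1 + 0 ∈ Lt
      rw [mul_one, add_zero]
      exact pi_mem_Lt
    | some j => exact hw j
  · intro i
    cases finSuccEquiv m i with
    | none => exact Submodule.zero_mem _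
    | some j => exact hu j

end Pool.Agent.Helper927_pe
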